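import Mathlib

set_option autoImplicit false
set_option linter.unusedSectionVars false
set_option linter.unusedVariables false

noncomputable section

namespace TH357SN

variable {G : Type*} [Group G]

/-- sums of nonnegative functions along injective maps -/
lemma sum_comp_le (S T : Finset G) (F : G → ℝ) (h0 : ∀ g, 0 ≤ F g) (hz : ∀ g, g ∉ S → F g = 0)
    (σ : G → G) (hσ : Function.Injective σ) : ∑ h ∈ T, F (σ h) ≤ ∑ k ∈ S, F k := by
  classical
  have h1 : ∑ h ∈ T, F (σ h) = ∑ k ∈ T.image σ, F k := by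
    rw [Finset.sum_image fun a _ c _ hac => hσ hac]
  have h2 : ∑ k ∈ T.image σ, F k = ∑ k ∈ (T.image σ).filter (· ∈ S), F k := by
    rw [Finset.sum_filter]
    apply Finset.sum_congr rfl
    intro g _
    split_ifs with hg
    · rfl
    · exact hz g hg
  rw [h1, h2]
  apply Finset.sum_le_sum_of_subset_of_nonneg
  · intro g hg
    exact (Finset.mem_filter.1 hg).2
  · intro g _ _
    exact h0 g

variable (S : Finset G) (f : G → ℝ)

/-- the common part of a weight and its translate -/
def kap (x : G) : ℝ := ∑ h ∈ S, min (f h) (f (x⁻¹ * h))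

/-- the distance of a weight from its translate -/
def vv (x : G) : ℝ := (∑ h ∈ S, f h) - kap S f x

lemma inj_left (x : G) : Function.Injective (fun h : G => x⁻¹ * h) :=
  fun _ _ h => mul_left_cancel h

lemma kap_nonneg (h0 : ∀ g, 0 ≤ f g) (x : G) : 0 ≤ kap S f x :=
  Finset.sum_nonneg fun h _ => le_min (h0 _) (h0 _)

lemma kap_one : kap S f 1 = ∑ h ∈ S, f h := by
  unfold kap
  apply Finset.sum_congr rfl
  intro h _
  rw [inv_one, one_mul, min_self]

lemma vv_one : vv S f 1 = 0 := by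
  unfold vv
  rw [kap_one, sub_self]

lemma kap_inv_le (h0 : ∀ g, 0 ≤ f g) (hz : ∀ g, g ∉ S → f g = 0) (x : G) :
    kap S f x ≤ kap S f x⁻¹ := by
  unfold kap
  have h1 := sum_comp_le S S (fun k => min (f k) (f (x⁻¹⁻¹ * k))) (fun g => le_min (h0 _) (h0 _))
    (fun g hg => by simp only [hz g hg]; exact min_eq_left (h0 _)) (fun h => x⁻¹ * h) (inj_left x)
  refine le_trans (le_of_eq ?_) h1
  apply Finset.sum_congr rfl
  intro h _
  rw [inv_mul_cancel_left, min_comm]

lemma vv_inv (h0 : ∀ g, 0 ≤ f g) (hz : ∀ g, g ∉ S → f g = 0) (x : G) :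
    vv S f x⁻¹ = vv S f x := by
  have h1 := kap_inv_le S f h0 hz x
  have h2 := kap_inv_le S f h0 hz x⁻¹
  rw [inv_inv] at h2
  unfold vv
  linarith

lemma vv_eq (x : G) : vv S f x = ∑ h ∈ S, max 0 (f h - f (x⁻¹ * h)) := by
  unfold vv kap
  rw [← Finset.sum_sub_distrib]
  apply Finset.sum_congr rfl
  intro h _
  rcases le_total (f h) (f (x⁻¹ * h)) with h1 | h1
  · rw [min_eq_left h1, max_eq_left (by linarith), sub_self]
  · rw [min_eq_right h1, max_eq_right (by linarith)]

lemma vv_nonneg (x : G) : 0 ≤ vv S f x := by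
  rw [vv_eq]
  exact Finset.sum_nonneg fun _ _ => le_max_left _ _

lemma vv_mul (h0 : ∀ g, 0 ≤ f g) (hz : ∀ g, g ∉ S → f g = 0) (x y : G) :
    vv S f (x * y) ≤ vv S f x + vv S f y := by
  have h1 : ∑ h ∈ S, max 0 (f (x⁻¹ * h) - f (y⁻¹ * (x⁻¹ * h))) ≤ vv S f y := by
    rw [vv_eq]
    exact sum_comp_le S S (fun k => max 0 (f k - f (y⁻¹ * k))) (fun g => le_max_left _ _)
      (fun g hg => by
        simp only [hz g hg]
        have := h0 (y⁻¹ * g)
        exact max_eq_left (by linarith)) (fun h => x⁻¹ * h) (inj_left x)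
  rw [vv_eq S f (x * y), vv_eq S f x]
  refine le_trans ?_ (add_le_add_right h1 _)
  rw [← Finset.sum_add_distrib]
  apply Finset.sum_le_sum
  intro h _
  have h2 : (x * y)⁻¹ * h = y⁻¹ * (x⁻¹ * h) := by group
  rw [h2]
  apply max_le
  · exact add_nonneg (le_max_left _ _) (le_max_left _ _)
  · have h3 := le_max_right 0 (f h - f (x⁻¹ * h))
    have h4 := le_max_right 0 (f (x⁻¹ * h) - f (y⁻¹ * (x⁻¹ * h)))
    linarith

/-- the mean of the distance -/
lemma mean_le (h0 : ∀ g, 0 ≤ f g) (hz : ∀ g, g ∉ S → f g = 0)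
    (hcv : ∀ g, f g ≤ ∑ x ∈ S, f x * f (x⁻¹ * g)) (hpos : ∃ g, 0 < f g) :
    ∑ x ∈ S, f x * vv S f x ≤ (∑ h ∈ S, f h) ^ 2 - 1 := by
  classical
  obtain ⟨g₁, hg₁⟩ := hpos
  have hne : S.Nonempty := by
    refine ⟨g₁, ?_⟩
    by_contra h
    rw [hz g₁ h] at hg₁
    exact lt_irrefl _ hg₁
  obtain ⟨g₀, hg₀, hmax⟩ := Finset.exists_max_image S f hne
  have hbm : ∀ g, f g ≤ f g₀ := by
    intro g
    by_cases hg : g ∈ S
    · exact hmax g hg
    · rw [hz g hg]
      exact h0 _
  have hm : 0 < f g₀ := hg₁.trans_le (hbm g₁)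
  -- the maximum is at most the sum of squares
  have ha : f g₀ ≤ ∑ g ∈ S, f g ^ 2 := by
    refine (hcv g₀).trans ?_
    have h3 : ∀ x ∈ S, f x * f (x⁻¹ * g₀) ≤ f x ^ 2 / 2 + f (x⁻¹ * g₀) ^ 2 / 2 := by
      intro x _
      nlinarith [sq_nonneg (f x - f (x⁻¹ * g₀))]
    refine (Finset.sum_le_sum h3).trans ?_
    rw [Finset.sum_add_distrib, ← Finset.sum_div, ← Finset.sum_div]
    have h4 := sum_comp_le S S (fun k => f k ^ 2) (fun g => sq_nonneg _)
      (fun g hg => by simp only [hz g hg]; norm_num) (fun x : G => x⁻¹ * g₀)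
      (fun x y hxy => inv_injective (mul_right_cancel hxy))
    linarith
  -- the convolution
  have hb : ∑ g ∈ S, f g ^ 2 ≤ f g₀ * ∑ x ∈ S, f x * kap S f x := by
    calc ∑ g ∈ S, f g ^ 2 ≤ ∑ g ∈ S, f g * ∑ x ∈ S, f x * f (x⁻¹ * g) := by
          apply Finset.sum_le_sum
          intro g _
          rw [pow_two]
          exact mul_le_mul_of_nonneg_left (hcv g) (h0 g)
      _ = ∑ x ∈ S, f x * ∑ g ∈ S, f g * f (x⁻¹ * g) := by
          simp only [Finset.mul_sum]
          rw [Finset.sum_comm]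
          apply Finset.sum_congr rfl
          intro x _
          apply Finset.sum_congr rfl
          intro g _
          ring
      _ ≤ ∑ x ∈ S, f x * (f g₀ * kap S f x) := by
          apply Finset.sum_le_sum
          intro x _
          apply mul_le_mul_of_nonneg_left _ (h0 x)
          unfold kap
          rw [Finset.mul_sum]
          apply Finset.sum_le_sum
          intro h _
          rcases le_total (f h) (f (x⁻¹ * h)) with h5 | h5
          · rw [min_eq_left h5, mul_comm (f g₀)]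
            exact mul_le_mul_of_nonneg_left (hbm _) (h0 _)
          · rw [min_eq_right h5]
            exact mul_le_mul_of_nonneg_right (hbm _) (h0 _)
      _ = f g₀ * ∑ x ∈ S, f x * kap S f x := by
          rw [Finset.mul_sum]
          apply Finset.sum_congr rfl
          intro x _
          ring
  have hc : 1 ≤ ∑ x ∈ S, f x * kap S f x := by
    have h6 : f g₀ * 1 ≤ f g₀ * ∑ x ∈ S, f x * kap S f x := by
      rw [mul_one]
      exact ha.trans hb
    exact le_of_mul_le_mul_left h6 hm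
  have hd : ∑ x ∈ S, f x * vv S f x = (∑ h ∈ S, f h) ^ 2 - ∑ x ∈ S, f x * kap S f x := by
    unfold vv
    simp only [mul_sub]
    rw [Finset.sum_sub_distrib, ← Finset.sum_mul, pow_two]
  rw [hd]
  linarith

/-- the gap inequality -/
lemma gap (h0 : ∀ g, 0 ≤ f g) (hz : ∀ g, g ∉ S → f g = 0)
    (hcv : ∀ g, f g ≤ ∑ x ∈ S, f x * f (x⁻¹ * g)) (hpos : ∃ g, 0 < f g) (y : G) :
    kap S f y * vv S f y ≤ 2 * ((∑ h ∈ S, f h) ^ 2 - 1) := by
  have h1 := mean_le S f h0 hz hcv hpos
  have h2 : kap S f y * vv S f y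
      ≤ (∑ x ∈ S, f x * vv S f x) + ∑ x ∈ S, f (y⁻¹ * x) * vv S f (y⁻¹ * x) := by
    unfold kap
    rw [Finset.sum_mul, ← Finset.sum_add_distrib]
    apply Finset.sum_le_sum
    intro x _
    have h3 : vv S f y ≤ vv S f x + vv S f (y⁻¹ * x) := by
      have h4 := vv_mul S f h0 hz x (x⁻¹ * y)
      rw [mul_inv_cancel_left] at h4
      have h5 := vv_inv S f h0 hz (x⁻¹ * y)
      rw [mul_inv_rev, inv_inv] at h5
      linarith
    have h6 := vv_nonneg S f x
    have h7 := vv_nonneg S f (y⁻¹ * x)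
    have h8 : 0 ≤ min (f x) (f (y⁻¹ * x)) := le_min (h0 _) (h0 _)
    calc min (f x) (f (y⁻¹ * x)) * vv S f y
        ≤ min (f x) (f (y⁻¹ * x)) * (vv S f x + vv S f (y⁻¹ * x)) :=
          mul_le_mul_of_nonneg_left h3 h8
      _ = min (f x) (f (y⁻¹ * x)) * vv S f x + min (f x) (f (y⁻¹ * x)) * vv S f (y⁻¹ * x) := by
          ring
      _ ≤ _ := add_le_add (mul_le_mul_of_nonneg_right (min_le_left _ _) h6)
          (mul_le_mul_of_nonneg_right (min_le_right _ _) h7)
  have h9 := sum_comp_le S S (fun k => f k * vv S f k)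
    (fun g => mul_nonneg (h0 _) (vv_nonneg S f _))
    (fun g hg => by simp only [hz g hg]; rw [zero_mul]) (fun h => y⁻¹ * h) (inj_left y)
  linarith

/-- a weight of small mass which is at most its convolution square is concentrated on a finite
subgroup -/
theorem exists_subgroup (h0 : ∀ g, 0 ≤ f g) (hz : ∀ g, g ∉ S → f g = 0)
    (hcv : ∀ g, f g ≤ ∑ x ∈ S, f x * f (x⁻¹ * g)) (hpos : ∃ g, 0 < f g)
    (N : ℝ) (hN : N = ∑ h ∈ S, f h) (hsmall : N ^ 2 < 9 / 8) :
    ∃ H : Subgroup G, (H : Set G).Finite ∧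
      (∀ T : Finset G, (∀ x ∈ T, x ∉ H) → (∑ x ∈ T, f x) * (2 * N / 3) ≤ N ^ 2 - 1) := by
  classical
  have hN0 : 0 ≤ N := by
    rw [hN]
    exact Finset.sum_nonneg fun g _ => h0 g
  have hmean := mean_le S f h0 hz hcv hpos
  rw [← hN] at hmean
  have hmean0 : 0 ≤ ∑ x ∈ S, f x * vv S f x :=
    Finset.sum_nonneg fun x _ => mul_nonneg (h0 _) (vv_nonneg S f _)
  have hN1 : 1 ≤ N := by
    by_contra h
    push Not at h
    nlinarith
  have hgap : ∀ y, vv S f y < 2 * N / 3 → vv S f y < N / 3 := by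
    intro y hy
    by_contra h
    push Not at h
    have h1 := gap S f h0 hz hcv hpos y
    rw [← hN] at h1
    have h2 : kap S f y = N - vv S f y := by
      unfold vv
      rw [hN]
      ring
    rw [h2] at h1
    nlinarith
  let H : Subgroup G :=
    { carrier := {x | vv S f x < N / 3}
      mul_mem' := by
        intro a b ha hb
        simp only [Set.mem_ofPred_eq] at ha hb ⊢
        apply hgap
        have := vv_mul S f h0 hz a b
        linarith
      one_mem' := by
        simp only [Set.mem_ofPred_eq]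
        rw [vv_one]
        linarith
      inv_mem' := by
        intro a ha
        simp only [Set.mem_ofPred_eq] at ha ⊢
        rw [vv_inv S f h0 hz]
        exact ha }
  have hmem : ∀ x, x ∈ H ↔ vv S f x < N / 3 := fun x => Iff.rfl
  refine ⟨H, ?_, ?_⟩
  · apply Set.Finite.subset (Finset.finite_toSet ((S ×ˢ S).image fun p => p.1 * p.2⁻¹))
    intro x hx
    have hx' : vv S f x < N / 3 := hx
    have h1 : 0 < kap S f x := by
      unfold vv at hx'
      rw [← hN] at hx'
      linarith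
    unfold kap at h1
    obtain ⟨h, hh, h2⟩ := Finset.exists_lt_of_sum_lt (s := S) (f := fun _ => (0 : ℝ))
      (g := fun h => min (f h) (f (x⁻¹ * h))) (by simpa using h1)
    rw [Finset.mem_coe, Finset.mem_image]
    refine ⟨(h, x⁻¹ * h), ?_, ?_⟩
    · rw [Finset.mem_product]
      refine ⟨hh, ?_⟩
      by_contra h3
      simp only [hz _ h3] at h2
      exact absurd (h2.trans_le (min_le_right _ _)) (lt_irrefl _)
    · simp
  · intro T hT
    have h1 : ∑ x ∈ T, f x * vv S f x ≤ ∑ x ∈ S, f x * vv S f x :=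
      sum_comp_le S T (fun k => f k * vv S f k) (fun g => mul_nonneg (h0 _) (vv_nonneg S f _))
        (fun g hg => by simp only [hz g hg]; rw [zero_mul]) id Function.injective_id
    have h2 : (∑ x ∈ T, f x) * (2 * N / 3) ≤ ∑ x ∈ T, f x * vv S f x := by
      rw [Finset.sum_mul]
      apply Finset.sum_le_sum
      intro x hx
      apply mul_le_mul_of_nonneg_left _ (h0 x)
      by_contra h3
      push Not at h3
      exact hT x hx (hgap x h3)
    linarith

end TH357SN
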