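import Pool.Agent.TH357.EN.E7
import Pool.Agent.TH357.SN.S1

set_option autoImplicit false
set_option linter.unusedSectionVars false
set_option linter.unusedVariables false

noncomputable section

namespace TH357SN

open MonoidAlgebra TH357EN

variable {G : Type*} [Group G] {𝔸 : Type*} [NormedRing 𝔸]

open Classical in
/-- restriction of an element of the group ring to a subgroup -/
def res (H : Subgroup G) (x : MonoidAlgebra 𝔸 G) : MonoidAlgebra 𝔸 G :=
  ofCoeff (x.coeff.filter (· ∈ H))

variable (H : Subgroup G)

open Classical in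
lemma res_coeff (x : MonoidAlgebra 𝔸 G) (g : G) :
    (res H x).coeff g = if g ∈ H then x.coeff g else 0 := by
  unfold res
  rw [coeff_ofCoeff, Finsupp.filter_apply]

lemma res_add (x y : MonoidAlgebra 𝔸 G) : res H (x + y) = res H x + res H y := by
  apply MonoidAlgebra.coeff_injective
  ext g
  rw [coeff_add, Finsupp.add_apply, res_coeff, res_coeff, res_coeff]
  split_ifs
  · simp
  · simp

lemma res_sub (x y : MonoidAlgebra 𝔸 G) : res H (x - y) = res H x - res H y := by
  have h := res_add H (x - y) y
  rw [sub_add_cancel] at h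
  rw [h, add_sub_cancel_right]

lemma res_zero : res H (0 : MonoidAlgebra 𝔸 G) = 0 := by
  apply MonoidAlgebra.coeff_injective
  ext g
  rw [res_coeff]
  simp

open Classical in
lemma res_single (g : G) (a : 𝔸) : res H (single g a) = if g ∈ H then single g a else 0 := by
  apply MonoidAlgebra.coeff_injective
  ext h
  rw [res_coeff, coeff_single]
  by_cases hh : g = h
  · subst hh
    split_ifs <;> simp
  · rw [Finsupp.single_apply, if_neg hh]
    split_ifs <;> simp [Finsupp.single_apply, hh]

lemma res_mul_left (x y : MonoidAlgebra 𝔸 G) : res H (res H x * y) = res H x * res H y := by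
  classical
  induction x using MonoidAlgebra.induction_linear with
  | zero => simp [res_zero]
  | add x₁ x₂ h1 h2 => rw [res_add, add_mul, add_mul, res_add, h1, h2]
  | single h r =>
    induction y using MonoidAlgebra.induction_linear with
    | zero => simp [res_zero]
    | add y₁ y₂ h1 h2 => rw [res_add H y₁, mul_add, mul_add, res_add, h1, h2]
    | single k s =>
      rw [res_single, res_single]
      by_cases h1 : h ∈ H
      · rw [if_pos h1, single_mul_single, res_single]
        by_cases h2 : k ∈ H
        · rw [if_pos h2, if_pos (H.mul_mem h1 h2), single_mul_single]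
        · rw [if_neg h2, if_neg (fun h3 => h2 ((H.mul_mem_cancel_left h1).1 h3)), mul_zero]
      · rw [if_neg h1, zero_mul, res_zero, zero_mul]

lemma res_mul_right (x y : MonoidAlgebra 𝔸 G) : res H (x * res H y) = res H x * res H y := by
  classical
  induction x using MonoidAlgebra.induction_linear with
  | zero => simp [res_zero]
  | add x₁ x₂ h1 h2 => rw [res_add, add_mul, add_mul, res_add, h1, h2]
  | single h r =>
    induction y using MonoidAlgebra.induction_linear with
    | zero => simp [res_zero]
    | add y₁ y₂ h1 h2 => rw [res_add H y₁, mul_add, mul_add, res_add, h1, h2]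
    | single k s =>
      rw [res_single, res_single]
      by_cases h1 : k ∈ H
      · rw [if_pos h1, single_mul_single, res_single]
        by_cases h2 : h ∈ H
        · rw [if_pos h2, if_pos (H.mul_mem h2 h1), single_mul_single]
        · rw [if_neg h2, if_neg (fun h3 => h2 ((H.mul_mem_cancel_right h1).1 h3)), zero_mul]
      · rw [if_neg h1, mul_zero, res_zero, mul_zero]

lemma res_res (x : MonoidAlgebra 𝔸 G) : res H (res H x) = res H x := by
  apply MonoidAlgebra.coeff_injective
  ext g
  rw [res_coeff, res_coeff]
  split_ifs <;> rfl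

lemma res_mul_self (x y : MonoidAlgebra 𝔸 G) (hx : res H x = x) (hy : res H y = y) :
    res H (x * y) = x * y := by
  have h := res_mul_left H x y
  rw [hx, hy] at h
  exact h

lemma res_idem (e : MonoidAlgebra 𝔸 G) (he : e * e = e) :
    res H e * res H e - res H e = - res H ((e - res H e) * (e - res H e)) := by
  have h1 : (e - res H e) * (e - res H e)
      = e * e - e * res H e - res H e * e + res H e * res H e := by
    rw [mul_sub, sub_mul, sub_mul]
    abel
  rw [h1, res_add, res_sub, res_sub, he, res_mul_right, res_mul_left]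
  have h2 : res H (res H e * res H e) = res H e * res H e := by
    have h3 := res_mul_left H e (res H e)
    rw [res_res] at h3
    exact h3
  rw [h2]
  abel

lemma l1_res (x : MonoidAlgebra 𝔸 G) : l1 (res H x) ≤ l1 x := by
  classical
  have h1 : (res H x).coeff.support ⊆ x.coeff.support := by
    intro g hg
    rw [Finsupp.mem_support_iff, res_coeff] at hg
    rw [Finsupp.mem_support_iff]
    intro h
    apply hg
    rw [h]
    split_ifs <;> rfl
  rw [l1_eq _ _ h1]
  unfold l1
  apply Finset.sum_le_sum
  intro g _
  rw [res_coeff]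
  split_ifs
  · exact le_rfl
  · rw [norm_zero]
    exact norm_nonneg _

open Classical in
lemma l1_sub_res (x : MonoidAlgebra 𝔸 G) :
    l1 (x - res H x) = ∑ g ∈ x.coeff.support.filter (· ∉ H), ‖x.coeff g‖ := by
  have h1 : (x - res H x).coeff.support ⊆ x.coeff.support := by
    intro g hg
    rw [Finsupp.mem_support_iff, coeff_sub, Finsupp.sub_apply, res_coeff] at hg
    rw [Finsupp.mem_support_iff]
    intro h
    apply hg
    rw [h]
    simp
  rw [l1_eq _ _ h1, Finset.sum_filter]
  apply Finset.sum_congr rfl
  intro g _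
  rw [coeff_sub, Finsupp.sub_apply, res_coeff]
  by_cases h : g ∈ H <;> simp [h]

lemma norm_coeff_le (x : MonoidAlgebra 𝔸 G) (g : G) : ‖x.coeff g‖ ≤ l1 x := by
  classical
  by_cases hg : g ∈ x.coeff.support
  · exact Finset.single_le_sum (f := fun g => ‖x.coeff g‖) (fun g _ => norm_nonneg _) hg
  · rw [Finsupp.notMem_support_iff.1 hg, norm_zero]
    exact l1_nonneg _

lemma l1_eq_zero (x : MonoidAlgebra 𝔸 G) (h : l1 x ≤ 0) : x = 0 := by
  apply MonoidAlgebra.coeff_injective
  ext g
  exact norm_le_zero_iff.1 ((norm_coeff_le x g).trans h)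

/-- the Newton iteration for idempotents -/
def newt (a : MonoidAlgebra 𝔸 G) : ℕ → MonoidAlgebra 𝔸 G
  | 0 => a
  | k + 1 => newt a k + (newt a k * newt a k - newt a k)
      - (2 : ℕ) • (newt a k * (newt a k * newt a k - newt a k))

lemma newt_succ (a : MonoidAlgebra 𝔸 G) (k : ℕ) : newt a (k + 1) =
    newt a k + (newt a k * newt a k - newt a k)
      - (2 : ℕ) • (newt a k * (newt a k * newt a k - newt a k)) := rfl

lemma newt_alg {R : Type*} [Ring R] (b : R) :
    (b + (b * b - b) - (2 : ℕ) • (b * (b * b - b))) * (b + (b * b - b) - (2 : ℕ) • (b * (b * b - b)))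
      - (b + (b * b - b) - (2 : ℕ) • (b * (b * b - b)))
      = (4 : ℕ) • ((b * b - b) * (b * b - b) * (b * b - b))
        - (3 : ℕ) • ((b * b - b) * (b * b - b)) := by
  simp only [nsmul_eq_mul, Nat.cast_ofNat]
  noncomm_ring

lemma newt_res (a : MonoidAlgebra 𝔸 G) (ha : res H a = a) (k : ℕ) :
    res H (newt a k) = newt a k := by
  induction k with
  | zero => exact ha
  | succ k ih =>
    have h1 : res H (newt a k * newt a k) = newt a k * newt a k := res_mul_self H _ _ ih ih
    have h2 : res H (newt a k * newt a k - newt a k) = newt a k * newt a k - newt a k := by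
      rw [res_sub, h1, ih]
    have h3 := res_mul_self H _ _ ih h2
    rw [newt_succ, two_nsmul, res_sub, res_add, res_add, h2, h3, ih]

lemma l1_nsmul (n : ℕ) (x : MonoidAlgebra 𝔸 G) : l1 (n • x) ≤ n * l1 x := by
  induction n with
  | zero => simp [l1_zero]
  | succ n ih =>
    rw [succ_nsmul]
    refine (l1_add _ _).trans ?_
    push_cast
    linarith

/-- the estimates for the Newton iteration -/
lemma newt_bound (a : MonoidAlgebra 𝔸 G) (ha1 : l1 a ≤ 107 / 100)
    (ha2 : l1 (a * a - a) ≤ 63 / 2000) (k : ℕ) :
    l1 (newt a k * newt a k - newt a k) ≤ 63 / 2000 * (1 / 8) ^ k ∧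
      l1 (newt a k - a) ≤ 49 / 400 * (1 - (1 / 8) ^ k) := by
  induction k with
  | zero =>
    refine ⟨?_, ?_⟩
    · simpa [newt] using ha2
    · simp [newt, l1_zero]
  | succ k ih =>
    obtain ⟨h1, h2⟩ := ih
    set b := newt a k with hb
    set d := l1 (b * b - b) with hd
    have hp0 : (0 : ℝ) < (1 / 8) ^ k := by positivity
    have hp1 : (1 / 8 : ℝ) ^ k ≤ 1 := pow_le_one₀ (by norm_num) (by norm_num)
    have hd0 : 0 ≤ d := l1_nonneg _
    have hd1 : d ≤ 63 / 2000 := by nlinarith
    have hbn : l1 b ≤ 6 / 5 := by
      have h3 : b = (b - a) + a := by abel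
      have h4 := l1_add (b - a) a
      rw [← h3] at h4
      nlinarith
    have hb0 := l1_nonneg b
    constructor
    · rw [newt_succ, newt_alg, ← hb]
      refine (l1_sub _ _).trans ?_
      have h5 := l1_nsmul 4 ((b * b - b) * (b * b - b) * (b * b - b))
      have h6 := l1_nsmul 3 ((b * b - b) * (b * b - b))
      have h7 : l1 ((b * b - b) * (b * b - b)) ≤ d * d := l1_mul _ _
      have h8 : l1 ((b * b - b) * (b * b - b) * (b * b - b)) ≤ d * d * d :=
        (l1_mul _ _).trans (mul_le_mul_of_nonneg_right h7 hd0)
      push_cast at h5 h6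
      have h9 : 4 * (d * d * d) + 3 * (d * d) ≤ d * (1 / 8) := by nlinarith
      rw [pow_succ]
      linarith
    · rw [newt_succ, ← hb]
      have h3 : b + (b * b - b) - (2 : ℕ) • (b * (b * b - b)) - a
          = (b - a) + ((b * b - b) - (2 : ℕ) • (b * (b * b - b))) := by abel
      rw [h3]
      refine (l1_add _ _).trans ?_
      have h4 := l1_sub (b * b - b) ((2 : ℕ) • (b * (b * b - b)))
      have h5 := l1_nsmul 2 (b * (b * b - b))
      have h6 := l1_mul b (b * b - b)
      rw [← hd] at h4 h6
      push_cast at h5
      have h7 : l1 b * d ≤ 6 / 5 * d := mul_le_mul_of_nonneg_right hbn hd0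
      rw [pow_succ]
      nlinarith

end TH357SN
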