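import Pool.Agent.TH357.SN.S2

set_option autoImplicit false
set_option linter.unusedSectionVars false
set_option linter.unusedVariables false

noncomputable section

namespace TH357SN

open MonoidAlgebra TH357EN Filter Topology

variable {G : Type*} [Group G] {𝔸 : Type*} [NormedRing 𝔸]

variable (H : Subgroup G)

/-- the step of the Newton iteration -/
lemma newt_step (a : MonoidAlgebra 𝔸 G) (ha1 : l1 a ≤ 107 / 100)
    (ha2 : l1 (a * a - a) ≤ 63 / 2000) (k : ℕ) :
    l1 (newt a (k + 1) - newt a k) ≤ 49 / 400 * (1 / 8) ^ k := by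
  obtain ⟨h1, h2⟩ := newt_bound a ha1 ha2 k
  set b := newt a k with hb
  set d := l1 (b * b - b) with hd
  have hp0 : (0 : ℝ) < (1 / 8) ^ k := by positivity
  have hd0 : 0 ≤ d := l1_nonneg _
  have hbn : l1 b ≤ 6 / 5 := by
    have h3 : b = (b - a) + a := by abel
    have h4 := l1_add (b - a) a
    rw [← h3] at h4
    nlinarith
  rw [newt_succ, ← hb]
  have h3 : b + (b * b - b) - (2 : ℕ) • (b * (b * b - b)) - b
      = (b * b - b) - (2 : ℕ) • (b * (b * b - b)) := by abel
  rw [h3]
  have h4 := l1_sub (b * b - b) ((2 : ℕ) • (b * (b * b - b)))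
  have h5 := l1_nsmul 2 (b * (b * b - b))
  have h6 := l1_mul b (b * b - b)
  rw [← hd] at h4 h6
  push_cast at h5
  have h7 : l1 b * d ≤ 6 / 5 * d := mul_le_mul_of_nonneg_right hbn hd0
  nlinarith

/-- almost idempotent elements over a finite subgroup are close to idempotents -/
theorem exists_idem [CompleteSpace 𝔸] (hH : (H : Set G).Finite) (a : MonoidAlgebra 𝔸 G)
    (ha : res H a = a) (ha1 : l1 a ≤ 107 / 100) (ha2 : l1 (a * a - a) ≤ 63 / 2000) :
    ∃ p : MonoidAlgebra 𝔸 G, p * p = p ∧ (∀ g, g ∉ H → p.coeff g = 0) ∧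
      l1 (p - a) ≤ 49 / 400 := by
  classical
  have hcau : ∀ g, CauchySeq fun k => (newt a k).coeff g := by
    intro g
    apply cauchySeq_of_le_geometric (1 / 8) (49 / 400) (by norm_num)
    intro k
    rw [dist_eq_norm, ← neg_sub, norm_neg]
    have h1 := norm_coeff_le (newt a (k + 1) - newt a k) g
    rw [coeff_sub, Finsupp.sub_apply] at h1
    exact h1.trans (newt_step a ha1 ha2 k)
  choose L hL using fun g => cauchySeq_tendsto_of_complete (hcau g)
  have hsup : ∀ k g, g ∉ H → (newt a k).coeff g = 0 := by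
    intro k g hg
    rw [← newt_res H a ha k, res_coeff, if_neg hg]
  have hL0 : ∀ g, g ∉ H → L g = 0 := by
    intro g hg
    refine tendsto_nhds_unique (hL g) ?_
    simp only [hsup _ g hg]
    exact tendsto_const_nhds
  set T : Finset G := hH.toFinset with hT
  have hTm : ∀ g, g ∈ T ↔ g ∈ H := fun g => by rw [hT, Set.Finite.mem_toFinset]; rfl
  let p : MonoidAlgebra 𝔸 G := ofCoeff (Finsupp.onFinset T L fun g hg => by
    by_contra h
    exact hg (hL0 g fun h2 => h ((hTm g).2 h2)))
  have hp : ∀ g, p.coeff g = L g := fun g => rfl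
  have hpT : p.coeff.support ⊆ T := by
    intro g hg
    rw [Finsupp.mem_support_iff, hp] at hg
    by_contra h
    exact hg (hL0 g fun h2 => h ((hTm g).2 h2))
  have hkT : ∀ k, (newt a k).coeff.support ⊆ T := by
    intro k g hg
    rw [Finsupp.mem_support_iff] at hg
    by_contra h
    exact hg (hsup k g fun h2 => h ((hTm g).2 h2))
  have hlim : Tendsto (fun k => l1 (p - newt a k)) atTop (𝓝 0) := by
    have h1 : ∀ k, l1 (p - newt a k) = ∑ g ∈ T, ‖L g - (newt a k).coeff g‖ := by
      intro k
      rw [l1_eq _ T]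
      · apply Finset.sum_congr rfl
        intro g _
        rw [coeff_sub, Finsupp.sub_apply, hp]
      · rw [coeff_sub]
        refine Finsupp.support_sub.trans ?_
        exact Finset.union_subset hpT (hkT k)
    simp only [h1]
    rw [show (0 : ℝ) = ∑ g ∈ T, (0 : ℝ) by simp]
    apply tendsto_finsetSum
    intro g _
    have h2 : Tendsto (fun k => L g - (newt a k).coeff g) atTop (𝓝 (L g - L g)) :=
      tendsto_const_nhds.sub (hL g)
    rw [sub_self] at h2
    simpa using h2.norm
  have hbn : ∀ k, l1 (newt a k) ≤ 6 / 5 := by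
    intro k
    obtain ⟨_, h2⟩ := newt_bound a ha1 ha2 k
    have hp0 : (0 : ℝ) < (1 / 8) ^ k := by positivity
    have h3 : newt a k = (newt a k - a) + a := by abel
    have h4 := l1_add (newt a k - a) a
    rw [← h3] at h4
    nlinarith
  refine ⟨p, ?_, ?_, ?_⟩
  · rw [← sub_eq_zero]
    apply l1_eq_zero
    have h1 : ∀ k, l1 (p * p - p) ≤ (l1 p + 6 / 5 + 1) * l1 (p - newt a k)
        + 63 / 2000 * (1 / 8) ^ k := by
      intro k
      obtain ⟨h2, _⟩ := newt_bound a ha1 ha2 k
      have h3 : p * p - p = p * (p - newt a k) + (p - newt a k) * newt a k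
          + (newt a k * newt a k - newt a k) - (p - newt a k) := by
        rw [mul_sub, sub_mul]
        abel
      rw [h3]
      refine (l1_sub _ _).trans ?_
      have h4 := l1_add (p * (p - newt a k) + (p - newt a k) * newt a k)
        (newt a k * newt a k - newt a k)
      have h5 := l1_add (p * (p - newt a k)) ((p - newt a k) * newt a k)
      have h6 := l1_mul p (p - newt a k)
      have h7 := l1_mul (p - newt a k) (newt a k)
      have h8 := mul_le_mul_of_nonneg_left (hbn k) (l1_nonneg (p - newt a k))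
      linarith
    have h2 : Tendsto (fun k : ℕ => (l1 p + 6 / 5 + 1) * l1 (p - newt a k)
        + 63 / 2000 * (1 / 8) ^ k) atTop (𝓝 ((l1 p + 6 / 5 + 1) * 0 + 63 / 2000 * 0)) :=
      (hlim.const_mul _).add
        ((tendsto_pow_atTop_nhds_zero_of_lt_one (by norm_num) (by norm_num)).const_mul _)
    have h3 := ge_of_tendsto' h2 h1
    simpa using h3
  · intro g hg
    rw [hp]
    exact hL0 g hg
  · have h1 : ∀ k, l1 (p - a) ≤ l1 (p - newt a k) + 49 / 400 := by
      intro k
      obtain ⟨_, h2⟩ := newt_bound a ha1 ha2 k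
      have hp0 : (0 : ℝ) < (1 / 8) ^ k := by positivity
      have h3 : p - a = (p - newt a k) + (newt a k - a) := by abel
      have h4 := l1_add (p - newt a k) (newt a k - a)
      rw [← h3] at h4
      nlinarith
    have h2 : Tendsto (fun k => l1 (p - newt a k) + 49 / 400) atTop (𝓝 (0 + 49 / 400)) :=
      hlim.add_const _
    have h3 := ge_of_tendsto' h2 h1
    simpa using h3

/-- idempotents of small norm are close to idempotents over finite subgroups -/
theorem near_finite [CompleteSpace 𝔸] (e : MonoidAlgebra 𝔸 G) (he : e * e = e)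
    (hN : l1 e ^ 2 < 9 / 8) :
    ∃ (H : Subgroup G) (p : MonoidAlgebra 𝔸 G), (H : Set G).Finite ∧ p * p = p ∧
      (∀ g, g ∉ H → p.coeff g = 0) ∧ l1 (e - p) ≤ 2999 / 10000 := by
  classical
  by_cases hne0 : e = 0
  · refine ⟨⊥, 0, ?_, by simp, fun g _ => by simp, ?_⟩
    · simp
    · rw [hne0, sub_zero, l1_zero]
      norm_num
  set S := e.coeff.support with hS
  set f : G → ℝ := fun g => ‖e.coeff g‖ with hf
  have h0 : ∀ g, 0 ≤ f g := fun g => norm_nonneg _
  have hz : ∀ g, g ∉ S → f g = 0 := by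
    intro g hg
    simp only [hf]
    rw [Finsupp.notMem_support_iff.1 hg, norm_zero]
  have hpos : ∃ g, 0 < f g := by
    by_contra h
    push Not at h
    apply hne0
    apply MonoidAlgebra.coeff_injective
    ext g
    exact norm_le_zero_iff.1 (h g)
  have hcv : ∀ g, f g ≤ ∑ x ∈ S, f x * f (x⁻¹ * g) := by
    intro g
    have h1 : e.coeff g = ∑ x ∈ S, e.coeff x * e.coeff (x⁻¹ * g) := by
      conv_lhs => rw [← he]
      rw [coeff_mul_apply_left]
      rfl
    simp only [hf]
    rw [h1]
    refine (norm_sum_le _ _).trans (Finset.sum_le_sum fun x _ => ?_)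
    exact norm_mul_le _ _
  have hMS : l1 e = ∑ g ∈ S, f g := rfl
  have hl0 := l1_nonneg e
  obtain ⟨H, hH, hout⟩ := exists_subgroup S f h0 hz hcv hpos (l1 e) hMS hN
  have hr := hout (S.filter (· ∉ H)) (fun x hx => (Finset.mem_filter.1 hx).2)
  have hr2 : l1 (e - res H e) = ∑ x ∈ S.filter (· ∉ H), f x := l1_sub_res H e
  rw [← hr2] at hr
  set ρ := l1 (e - res H e) with hρ
  have hρ0 : 0 ≤ ρ := l1_nonneg _
  have hN1 : 1 ≤ l1 e := by
    by_contra h
    push Not at h
    nlinarith [mul_nonneg hρ0 (show 0 ≤ 2 * l1 e / 3 by linarith)]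
  have hN2 : l1 e ≤ 10607 / 10000 := by
    by_contra h
    push Not at h
    nlinarith
  have hρ1 : ρ ≤ 887 / 5000 := by
    by_contra h
    push Not at h
    have h2 : (887 / 5000 : ℝ) * (2 * l1 e / 3) ≤ ρ * (2 * l1 e / 3) :=
      mul_le_mul_of_nonneg_right h.le (by linarith)
    nlinarith
  have ha2 : l1 (res H e * res H e - res H e) ≤ 63 / 2000 := by
    rw [res_idem H e he, l1_neg]
    refine (l1_res H _).trans ((l1_mul _ _).trans ?_)
    rw [← hρ]
    nlinarith
  obtain ⟨p, hp1, hp2, hp3⟩ := exists_idem H hH (res H e) (res_res H e)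
    ((l1_res H e).trans (hN2.trans (by norm_num))) ha2
  refine ⟨H, p, hH, hp1, hp2, ?_⟩
  have h3 : e - p = (e - res H e) - (p - res H e) := by abel
  rw [h3]
  refine (l1_sub _ _).trans ?_
  rw [← hρ]
  linarith

end TH357SN
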