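import Pool.Agent.TH357.SN.S3
import Pool.Agent.H26R2.Bass.Main

set_option autoImplicit false
set_option linter.unusedSectionVars false
set_option linter.unusedVariables false

noncomputable section

namespace TH357SN

open MonoidAlgebra TH357EN
open Pool.Agent.H23R2.Cyc (ell ell_single tf tf_apply)
open Pool.Agent.H26R2.IdemLI (ch ch_coeff ch_injective)
open Pool.Agent.H26R2.Bass (tf_zero_of_finite tau tau_eq ind tf_ch)

section toM

variable {G : Type*} [Group G] {n : ℕ} {K : Type*} [CommRing K]

/-- matrices over the group ring from matrix coefficients -/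
def toM (x : MonoidAlgebra (Matrix (Fin n) (Fin n) K) G) :
    Matrix (Fin n) (Fin n) (MonoidAlgebra K G) :=
  Matrix.of fun i j => ofCoeff (x.coeff.mapRange (fun a => a i j) rfl)

lemma toM_coeff (x : MonoidAlgebra (Matrix (Fin n) (Fin n) K) G) (i j : Fin n) (g : G) :
    (toM x i j).coeff g = x.coeff g i j := rfl

lemma toM_injective : Function.Injective (toM : MonoidAlgebra (Matrix (Fin n) (Fin n) K) G → _) := by
  intro x y h
  apply MonoidAlgebra.coeff_injective
  ext g i j
  rw [← toM_coeff, ← toM_coeff, h]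

lemma toM_add (x y : MonoidAlgebra (Matrix (Fin n) (Fin n) K) G) :
    toM (x + y) = toM x + toM y := by
  ext i j g
  rw [Matrix.add_apply, coeff_add, Finsupp.add_apply, toM_coeff, toM_coeff, toM_coeff, coeff_add,
    Finsupp.add_apply, Matrix.add_apply]

lemma toM_zero : toM (0 : MonoidAlgebra (Matrix (Fin n) (Fin n) K) G) = 0 := by
  ext i j g
  rw [toM_coeff]
  simp

lemma toM_single (g : G) (a : Matrix (Fin n) (Fin n) K) (i j : Fin n) :
    toM (single g a) i j = single g (a i j) := by
  classical
  apply MonoidAlgebra.coeff_injective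
  ext h
  rw [toM_coeff, coeff_single, coeff_single, Finsupp.single_apply, Finsupp.single_apply]
  split_ifs <;> rfl

lemma toM_mul (x y : MonoidAlgebra (Matrix (Fin n) (Fin n) K) G) :
    toM (x * y) = toM x * toM y := by
  classical
  induction x using MonoidAlgebra.induction_linear with
  | zero => rw [zero_mul, toM_zero, zero_mul]
  | add x₁ x₂ h1 h2 => rw [add_mul, toM_add, toM_add, h1, h2, add_mul]
  | single h r =>
    induction y using MonoidAlgebra.induction_linear with
    | zero => rw [mul_zero, toM_zero, mul_zero]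
    | add y₁ y₂ h1 h2 => rw [mul_add, toM_add, toM_add, h1, h2, mul_add]
    | single k s =>
      refine Matrix.ext fun i j => ?_
      rw [single_mul_single, toM_single, Matrix.mul_apply, Matrix.mul_apply]
      have h1 : ∀ l ∈ Finset.univ, toM (single h r) i l * toM (single k s) l j
          = single (h * k) (r i l * s l j) := by
        intro l _
        rw [toM_single, toM_single, single_mul_single]
      rw [Finset.sum_congr rfl h1]
      apply MonoidAlgebra.coeff_injective
      rw [coeff_single, MonoidAlgebra.coeff_sum]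
      simp only [coeff_single]
      exact Finsupp.single_finsetSum _ _ _

open Classical in
/-- matrix coefficients of a matrix over the group ring -/
def fromM (A : Matrix (Fin n) (Fin n) (MonoidAlgebra K G)) :
    MonoidAlgebra (Matrix (Fin n) (Fin n) K) G :=
  ofCoeff (Finsupp.onFinset
    (Finset.univ.biUnion fun i => Finset.univ.biUnion fun j => (A i j).coeff.support)
    (fun g => Matrix.of fun i j => (A i j).coeff g) (by
      intro g hg
      by_contra h
      apply hg
      ext i j
      simp only [Finset.mem_biUnion, Finset.mem_univ, true_and, not_exists,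
        Finsupp.mem_support_iff, not_not] at h
      exact h i j))

lemma fromM_coeff (A : Matrix (Fin n) (Fin n) (MonoidAlgebra K G)) (g : G) :
    (fromM A).coeff g = Matrix.of fun i j => (A i j).coeff g := rfl

lemma toM_fromM (A : Matrix (Fin n) (Fin n) (MonoidAlgebra K G)) : toM (fromM A) = A := by
  ext i j g
  rw [toM_coeff, fromM_coeff]
  rfl

lemma fromM_idem (A : Matrix (Fin n) (Fin n) (MonoidAlgebra K G)) (hA : A * A = A) :
    fromM A * fromM A = fromM A := by
  apply toM_injective
  rw [toM_mul, toM_fromM, hA]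

end toM

/-- the main theorem for coefficients in a finite-dimensional algebra -/
theorem fd {G : Type*} [Group G] {K : Type*} [NontriviallyNormedField K] [CompleteSpace K]
    {𝔸 : Type*} [i1 : NormedRing 𝔸] [i2 : NormedSpace K 𝔸] [FiniteDimensional K 𝔸]
    (t : 𝔸 →ₗ[K] K) (htc : ∀ a b, t (a * b) = t (b * a))
    (x : MonoidAlgebra 𝔸 G) (hx : x * x = x) (hN : l1 x ^ 2 < 9 / 8) :
    ∃ (H : Subgroup G) (p : MonoidAlgebra 𝔸 G), (H : Set G).Finite ∧
      p * p = p ∧ (∀ g, g ∉ H → p.coeff g = 0) ∧
      (∀ S : Finset G, ∑ g ∈ S, ‖x.coeff g - p.coeff g‖ ≤ 2999 / 10000) ∧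
      ∀ g : G, Tr g t.toAddMonoidHom x = Tr g t.toAddMonoidHom p := by
  classical
  have i3 : CompleteSpace 𝔸 := FiniteDimensional.complete K 𝔸
  obtain ⟨H, p, hH, hp1, hp2, hp3⟩ := near_finite x hx hN
  refine ⟨H, p, hH, hp1, hp2, ?_, ?_⟩
  · intro S
    have h1 : ∑ g ∈ S, ‖x.coeff g - p.coeff g‖ ≤ l1 (x - p) := by
      rw [l1_eq (x - p) (S ∪ (x - p).coeff.support) Finset.subset_union_right]
      refine le_trans (le_of_eq ?_) (Finset.sum_le_sum_of_subset_of_nonneg
        (Finset.subset_union_left) (fun g _ _ => norm_nonneg _))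
      apply Finset.sum_congr rfl
      intro g _
      rw [coeff_sub, Finsupp.sub_apply]
    exact h1.trans hp3
  · intro g
    have ht : Continuous t := LinearMap.continuous_of_finiteDimensional t
    let t' : 𝔸 →L[K] K := ⟨t, ht⟩
    have hsq : l1 ((x - p) ^ 2) < 1 := by
      rw [pow_two]
      refine (l1_mul _ _).trans_lt ?_
      have := l1_nonneg (x - p)
      nlinarith
    exact trace_eq g t.toAddMonoidHom ‖t'‖ (norm_nonneg _)
      (fun a => t'.le_opNorm a) htc p x hp1 hx _ hsq le_rfl

/-- the main theorem for matrix coefficients -/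
theorem core {G : Type*} [Group G] {n : ℕ} {K : Type*} [NontriviallyNormedField K]
    [CompleteSpace K] (ν : AlgebraNorm K (Matrix (Fin n) (Fin n) K))
    (x : MonoidAlgebra (Matrix (Fin n) (Fin n) K) G) (hx : x * x = x)
    (hν : (∑ g ∈ x.coeff.support, ν (x.coeff g)) ^ 2 < 9 / 8) :
    ∃ (H : Subgroup G) (p : MonoidAlgebra (Matrix (Fin n) (Fin n) K) G), (H : Set G).Finite ∧
      p * p = p ∧ (∀ g, g ∉ H → p.coeff g = 0) ∧
      (∀ S : Finset G, ∑ g ∈ S, ν (x.coeff g - p.coeff g) ≤ 2999 / 10000) ∧
      ∀ g : G, open Classical in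
        (x.coeff.sum fun h r => if IsConj g h then Matrix.traceAddMonoidHom (Fin n) K r else 0)
        = p.coeff.sum fun h r => if IsConj g h then Matrix.traceAddMonoidHom (Fin n) K r else 0 :=
  @fd G _ K _ _ (Matrix (Fin n) (Fin n) K) ν.toRingNorm.toNormedRing
    (@NormedSpace.mk K (Matrix (Fin n) (Fin n) K) _
      ν.toRingNorm.toNormedRing.toNonUnitalNormedRing.toNormedAddCommGroup.toSeminormedAddCommGroup
      (inferInstanceAs (Module K (Matrix (Fin n) (Fin n) K)))
      (fun c a => le_of_eq (ν.smul' c a)))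
    (inferInstanceAs (FiniteDimensional K (Matrix (Fin n) (Fin n) K)))
    (Matrix.traceLinearMap (Fin n) K K) (fun a b => Matrix.trace_mul_comm a b) x hx hν

lemma tf_toM {G : Type*} [Group G] {n : ℕ} {K : Type*} [CommRing K]
    (x : MonoidAlgebra (Matrix (Fin n) (Fin n) K) G) (g : G) :
    tf (ind K g) (toM x) = open Classical in
      x.coeff.sum fun h r => if IsConj g h then Matrix.traceAddMonoidHom (Fin n) K r else 0 := by
  classical
  induction x using MonoidAlgebra.induction_linear with
  | zero => rw [toM_zero, map_zero]; simp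
  | add x y hx hy =>
    rw [toM_add, map_add, hx, hy, coeff_add, Finsupp.sum_add_index']
    · intro h; simp
    · intro h r s
      split_ifs <;> simp
  | single h r =>
    rw [tf_apply, coeff_single, Finsupp.sum_single_index (by simp)]
    simp only [toM_single, ell_single]
    unfold ind
    by_cases h1 : IsConj g h
    · rw [if_pos h1]
      simp only [if_pos h1.symm, mul_one]
      rfl
    · rw [if_neg h1]
      simp only [if_neg (fun h2 => h1 (IsConj.symm h2)), mul_zero, Finset.sum_const_zero]

/-- the Hattori-Stallings rank of an idempotent matrix of small norm -/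
theorem main {R : Type*} [CommRing R] [IsDomain R] {G : Type*} [Group G] {n : ℕ}
    {K : Type*} [NontriviallyNormedField K] [CompleteSpace K] (φ : R →+* K)
    (hφ : Function.Injective φ) (ν : AlgebraNorm K (Matrix (Fin n) (Fin n) K))
    (A : Matrix (Fin n) (Fin n) (MonoidAlgebra R G)) (hA : A * A = A)
    (c : ℝ) (hc9 : c ^ 2 < 9 / 8)
    (hν : ∀ S : Finset G, ∑ g ∈ S, ν (Matrix.of fun i j => φ ((A i j).coeff g)) ≤ c) :
    ∃ (H : Subgroup G) (P : Matrix (Fin n) (Fin n) (MonoidAlgebra K G)),
      Finite H ∧ P * P = P ∧ (∀ i j, ∀ g, g ∉ H → (P i j).coeff g = 0) ∧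
      (∀ S : Finset G, ∑ g ∈ S, ν (Matrix.of fun i j => φ ((A i j).coeff g) - (P i j).coeff g)
        < 3 / 10) ∧
      (∀ g : G, φ (tau A g) = tau P g) ∧
      (∀ g : G, ¬ IsUnit ((orderOf g : ℕ) : R) → tau A g = 0) := by
  classical
  have hA' : A.map (ch φ G) * A.map (ch φ G) = A.map (ch φ G) := by
    rw [← Matrix.map_mul, hA]
  have hc : ∀ g, (fromM (A.map (ch φ G))).coeff g = Matrix.of fun i j => φ ((A i j).coeff g) := by
    intro g
    rw [fromM_coeff]
    ext i j
    rw [Matrix.of_apply, Matrix.of_apply, Matrix.map_apply, ch_coeff]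
  obtain ⟨H, p, hH, hp1, hp2, hp3, hp4⟩ := core ν (fromM (A.map (ch φ G))) (fromM_idem _ hA')
    (by
      simp only [hc]
      refine lt_of_le_of_lt (pow_le_pow_left₀ ?_ (hν _) 2) hc9
      exact Finset.sum_nonneg fun g _ => apply_nonneg ν _)
  have htau : ∀ g : G, φ (tau A g) = tau (toM p) g := by
    intro g
    rw [tau_eq, tau_eq, tf_toM, ← hp4 g, ← tf_toM, toM_fromM, tf_ch]
  have hP : ∀ i j, ∀ g, g ∉ H → (toM p i j).coeff g = 0 := by
    intro i j g hg
    rw [toM_coeff, hp2 g hg]
    rfl
  refine ⟨H, toM p, hH, by rw [← toM_mul, hp1], hP, ?_, htau, ?_⟩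
  · intro S
    refine lt_of_le_of_lt ?_ (show (2999 / 10000 : ℝ) < 3 / 10 by norm_num)
    refine le_trans (le_of_eq ?_) (hp3 S)
    apply Finset.sum_congr rfl
    intro g _
    rfl
  · intro g hg
    by_cases hfin : orderOf g = 0
    · apply hφ
      rw [map_zero, htau g]
      unfold tau
      apply Finset.sum_eq_zero
      intro i _
      apply finsum_eq_zero_of_forall_eq_zero
      intro h
      rw [finsum_eq_if]
      split_ifs with hh
      swap
      · rfl
      apply hP
      intro hmem
      have hfinH : Finite H := hH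
      have h1 : orderOf (⟨h, hmem⟩ : H) ≠ 0 := (orderOf_pos _).ne'
      rw [Subgroup.orderOf_mk] at h1
      obtain ⟨c, hc⟩ := isConj_iff.1 hh
      apply h1
      rw [← hfin, ← hc]
      exact (orderOf_injective (MulAut.conj c).toMonoidHom (MulAut.conj c).injective h).symm
    · rw [tau_eq]
      exact tf_zero_of_finite A hA g hfin hg

end TH357SN
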